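import Mathlib

set_option autoImplicit false

open Polynomial Matrix

namespace Pool.Agent.Results.MP_87d29b_co.PrismCounterexample

/-- The set of (real) adjacency eigenvalues of `G`. -/
def eigs {V : Type} [Fintype V] (G : SimpleGraph V) [DecidableRel G.Adj] : Set ℝ :=
  {μ | ∃ v : V → ℝ, v ≠ 0 ∧ (G.adjMatrix ℝ).mulVec v = μ • v}

/-- The inner product `⟨f, g⟩ = (1/n) tr (f(A) g(A))`. -/
noncomputable def ip {V : Type} [Fintype V] [DecidableEq V] (G : SimpleGraph V)
    [DecidableRel G.Adj] (f g : ℝ[X]) : ℝ :=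
  (1 / (Fintype.card V : ℝ)) *
    Matrix.trace (aeval (G.adjMatrix ℝ) f * aeval (G.adjMatrix ℝ) g)

/-- `p 0, ..., p d` are the predistance polynomials of `G`, where `lam0` is the largest
eigenvalue of `G` and `d + 1` is the number of distinct eigenvalues. -/
structure IsPredistance {V : Type} [Fintype V] [DecidableEq V] (G : SimpleGraph V)
    [DecidableRel G.Adj] (d : ℕ) (lam0 : ℝ) (p : ℕ → ℝ[X]) : Prop where
  card_eigs : (eigs G).ncard = d + 1
  largest : IsGreatest (eigs G) lam0
  degree_eq : ∀ i ≤ d, (p i).degree = (i : ℕ)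
  orth : ∀ i ≤ d, ∀ j ≤ d, i ≠ j → ip G (p i) (p j) = 0
  normalised : ∀ i ≤ d, ip G (p i) (p i) = (p i).eval lam0

/-- Walk-regularity: the number of closed walks of length `l` at `x` does not depend on `x`. -/
def WalkRegular {V : Type} (G : SimpleGraph V) : Prop :=
  ∀ (l : ℕ) (x y : V), Nat.card {w : G.Walk x x // w.length = l} =
    Nat.card {w : G.Walk y y // w.length = l}

/-- The triangular prism. -/
def prism : SimpleGraph (Fin 6) where
  Adj a b := a ≠ b ∧ (a.val / 3 = b.val / 3 ∨ a.val % 3 = b.val % 3)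
  symm := by
    constructor
    intro a b h
    exact ⟨h.1.symm, h.2.imp Eq.symm Eq.symm⟩
  loopless := ⟨fun a h => h.1 rfl⟩

instance : DecidableRel prism.Adj := fun a b => by
  unfold prism
  infer_instance

abbrev Aℤ : Matrix (Fin 6) (Fin 6) ℤ := prism.adjMatrix ℤ

lemma adj_map : prism.adjMatrix ℝ = (Int.castRingHom ℝ).mapMatrix Aℤ := by
  ext i j
  simp only [RingHom.mapMatrix_apply, Matrix.map_apply, SimpleGraph.adjMatrix_apply]
  split_ifs <;> simp

lemma adj_pow (l : ℕ) : (prism.adjMatrix ℝ) ^ l = (Int.castRingHom ℝ).mapMatrix (Aℤ ^ l) := by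
  rw [adj_map, map_pow]

lemma tr0 : (Aℤ ^ 0).trace = 6 := by decide +kernel
lemma tr1 : (Aℤ ^ 1).trace = 0 := by decide +kernel
lemma tr2 : (Aℤ ^ 2).trace = 18 := by decide +kernel
lemma tr3 : (Aℤ ^ 3).trace = 12 := by decide +kernel
lemma tr4 : (Aℤ ^ 4).trace = 114 := by decide +kernel
lemma tr5 : (Aℤ ^ 5).trace = 180 := by decide +kernel
lemma tr6 : (Aℤ ^ 6).trace = 858 := by decide +kernel

lemma minpolyZ : Aℤ ^ 4 = 2 • Aℤ ^ 3 + 5 • Aℤ ^ 2 - 6 • Aℤ := by decide +kernel


lemma AZ_eq : Aℤ = !![0,1,1,1,0,0; 1,0,1,0,1,0; 1,1,0,0,0,1; 1,0,0,0,1,1; 0,1,0,1,0,1; 0,0,1,1,1,0] := by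
  decide +kernel

lemma adj_eq : prism.adjMatrix ℝ =
    !![0,1,1,1,0,0; 1,0,1,0,1,0; 1,1,0,0,0,1; 1,0,0,0,1,1; 0,1,0,1,0,1; 0,0,1,1,1,0] := by
  rw [adj_map, AZ_eq]
  ext i j
  fin_cases i <;> fin_cases j <;> simp [RingHom.mapMatrix_apply, Matrix.map_apply]

lemma tr (l : ℕ) : ((prism.adjMatrix ℝ) ^ l).trace = (((Aℤ ^ l).trace : ℤ) : ℝ) := by
  rw [adj_pow]
  simp [Matrix.trace, RingHom.mapMatrix_apply, Matrix.map_apply]

lemma minpolyR : (prism.adjMatrix ℝ) ^ 4 =
    2 • (prism.adjMatrix ℝ) ^ 3 + 5 • (prism.adjMatrix ℝ) ^ 2 - 6 • (prism.adjMatrix ℝ) := by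
  have h1 := adj_pow 4
  have h2 := adj_pow 3
  have h3 := adj_pow 2
  rw [h1, h2, h3, minpolyZ]
  conv_rhs => rw [adj_map]
  simp only [map_add, map_sub, map_nsmul]

lemma mulVec_eq (v : Fin 6 → ℝ) (μ : ℝ) : (prism.adjMatrix ℝ).mulVec v = μ • v ↔
    (v 1 + v 2 + v 3 = μ * v 0 ∧ v 0 + v 2 + v 4 = μ * v 1 ∧ v 0 + v 1 + v 5 = μ * v 2 ∧
     v 0 + v 4 + v 5 = μ * v 3 ∧ v 1 + v 3 + v 5 = μ * v 4 ∧ v 2 + v 3 + v 4 = μ * v 5) := by
  rw [adj_eq, funext_iff]
  simp only [Matrix.mulVec, dotProduct, Fin.sum_univ_six, Fin.forall_fin_succ, Pi.smul_apply,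
    smul_eq_mul]
  simp

lemma eigs_prism : eigs prism = {3, 1, 0, -2} := by
  apply Set.Subset.antisymm
  · rintro μ ⟨v, hv, h⟩
    rw [mulVec_eq] at h
    obtain ⟨h0, h1, h2, h3, h4, h5⟩ := h
    by_contra hμ
    simp only [Set.mem_insert_iff, Set.mem_singleton_iff, not_or] at hμ
    obtain ⟨n3, n1, n0, n2⟩ := hμ
    have n3' : μ - 3 ≠ 0 := sub_ne_zero.2 n3
    have n1' : μ - 1 ≠ 0 := sub_ne_zero.2 n1
    have n2' : μ + 2 ≠ 0 := by
      intro h
      exact n2 (by linarith)
    apply hv
    -- sums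
    have hS : v 0 + v 1 + v 2 + v 3 + v 4 + v 5 = 0 := by
      have : (μ - 3) * (v 0 + v 1 + v 2 + v 3 + v 4 + v 5) = 0 := by
        linear_combination -(h0 + h1 + h2 + h3 + h4 + h5)
      exact (mul_eq_zero.1 this).resolve_left n3'
    have s0 : v 0 + v 3 = 0 := by
      have : μ * (v 0 + v 3) = 0 := by linear_combination hS - h0 - h3
      exact (mul_eq_zero.1 this).resolve_left n0
    have s1 : v 1 + v 4 = 0 := by
      have : μ * (v 1 + v 4) = 0 := by linear_combination hS - h1 - h4
      exact (mul_eq_zero.1 this).resolve_left n0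
    have s2 : v 2 + v 5 = 0 := by
      have : μ * (v 2 + v 5) = 0 := by linear_combination hS - h2 - h5
      exact (mul_eq_zero.1 this).resolve_left n0
    have hT : (v 0 - v 3) + (v 1 - v 4) + (v 2 - v 5) = 0 := by
      have : (μ - 1) * ((v 0 - v 3) + (v 1 - v 4) + (v 2 - v 5)) = 0 := by
        linear_combination -(h0 + h1 + h2 - h3 - h4 - h5)
      exact (mul_eq_zero.1 this).resolve_left n1'
    have t0 : v 0 - v 3 = 0 := by
      have : (μ + 2) * (v 0 - v 3) = 0 := by linear_combination hT - h0 + h3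
      exact (mul_eq_zero.1 this).resolve_left n2'
    have t1 : v 1 - v 4 = 0 := by
      have : (μ + 2) * (v 1 - v 4) = 0 := by linear_combination hT - h1 + h4
      exact (mul_eq_zero.1 this).resolve_left n2'
    have t2 : v 2 - v 5 = 0 := by
      have : (μ + 2) * (v 2 - v 5) = 0 := by linear_combination hT - h2 + h5
      exact (mul_eq_zero.1 this).resolve_left n2'
    ext i
    fin_cases i <;> simp <;> linarith
  · rintro μ hμ
    simp only [Set.mem_insert_iff, Set.mem_singleton_iff] at hμ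
    rcases hμ with rfl | rfl | rfl | rfl
    · refine ⟨![1, 1, 1, 1, 1, 1], ?_, ?_⟩
      · intro h; have := congrFun h 0; simp at this
      · rw [mulVec_eq]; simp; norm_num
    · refine ⟨![1, 1, 1, -1, -1, -1], ?_, ?_⟩
      · intro h; have := congrFun h 0; simp at this
      · rw [mulVec_eq]; simp
    · refine ⟨![1, -1, 0, 1, -1, 0], ?_, ?_⟩
      · intro h; have := congrFun h 0; simp at this
      · rw [mulVec_eq]; simp
    · refine ⟨![1, -1, 0, -1, 1, 0], ?_, ?_⟩
      · intro h; have := congrFun h 0; simp at this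
      · rw [mulVec_eq]; simp; norm_num

lemma card_eigs_prism : (eigs prism).ncard = 4 := by
  rw [eigs_prism]
  have : ({3, 1, 0, -2} : Set ℝ) = (({3, 1, 0, -2} : Finset ℝ) : Set ℝ) := by simp
  rw [this, Set.ncard_coe_finset]
  rw [Finset.card_insert_of_notMem, Finset.card_insert_of_notMem, Finset.card_insert_of_notMem,
    Finset.card_singleton] <;> norm_num

lemma greatest_prism : IsGreatest (eigs prism) 3 := by
  rw [eigs_prism]
  constructor
  · simp
  · rintro μ hμ
    simp only [Set.mem_insert_iff, Set.mem_singleton_iff] at hμ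
    rcases hμ with rfl | rfl | rfl | rfl <;> norm_num

/-- a cubic polynomial -/
noncomputable def cub (a b c e : ℝ) : ℝ[X] := C a * X ^ 3 + C b * X ^ 2 + C c * X + C e

lemma ip_cub (a b c e a' b' c' e' : ℝ) : ip prism (cub a b c e) (cub a' b' c' e') =
    143 * (a * a') + 30 * (a * b' + b * a') + 19 * (a * c' + b * b' + c * a') +
    2 * (a * e' + b * c' + c * b' + e * a') + 3 * (b * e' + c * c' + e * b') +
    e * e' := by
  have hmul : cub a b c e * cub a' b' c' e' = C (a * a') * X ^ 6 + C (a * b' + b * a') * X ^ 5 +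
      C (a * c' + b * b' + c * a') * X ^ 4 + C (a * e' + b * c' + c * b' + e * a') * X ^ 3 +
      C (b * e' + c * c' + e * b') * X ^ 2 + C (c * e' + e * c') * X ^ 1 + C (e * e') * X ^ 0 := by
    simp only [cub, map_add, map_mul]
    ring
  have hterm : ∀ (r : ℝ) (l : ℕ), (aeval (prism.adjMatrix ℝ) (C r * X ^ l : ℝ[X])).trace =
      r * (((Aℤ ^ l).trace : ℤ) : ℝ) := by
    intro r l
    rw [← tr]
    simp [Algebra.algebraMap_eq_smul_one]
  rw [ip, ← map_mul, hmul]
  simp only [map_add (aeval (prism.adjMatrix ℝ)), Matrix.trace_add, hterm, tr0, tr1, tr2, tr3, tr4,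
    tr5, tr6]
  simp only [Fintype.card_fin]
  push_cast
  ring

lemma eval_cub (a b c e x : ℝ) : (cub a b c e).eval x = a * x ^ 3 + b * x ^ 2 + c * x + e := by
  simp [cub]

lemma exists_cub {p : ℝ[X]} (hp : p.degree ≤ 3) : p = cub (p.coeff 3) (p.coeff 2) (p.coeff 1)
    (p.coeff 0) := by
  have h : p.natDegree < 4 := by
    have h3 : p.natDegree ≤ 3 := Polynomial.natDegree_le_of_degree_le hp
    omega
  conv_lhs => rw [p.as_sum_range_C_mul_X_pow' h]
  simp only [Finset.sum_range_succ, Finset.sum_range_zero, cub]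
  ring

lemma pred_unique {p : ℕ → ℝ[X]} (hp : IsPredistance prism 3 3 p) : (p 3).eval 3 = 2 / 13 := by
  have d0 := hp.degree_eq 0 (by norm_num)
  have d1 := hp.degree_eq 1 (by norm_num)
  have d2 := hp.degree_eq 2 (by norm_num)
  have d3 := hp.degree_eq 3 (by norm_num)
  have e0 := exists_cub (p := p 0) (by rw [d0]; norm_num)
  have e1 := exists_cub (p := p 1) (by rw [d1]; norm_num)
  have e2 := exists_cub (p := p 2) (by rw [d2]; norm_num)
  have e3 := exists_cub (p := p 3) (by rw [d3]; norm_num)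
  have o0 := hp.orth 3 (by norm_num) 0 (by norm_num) (by norm_num)
  have o1 := hp.orth 3 (by norm_num) 1 (by norm_num) (by norm_num)
  have o2 := hp.orth 3 (by norm_num) 2 (by norm_num) (by norm_num)
  have n3 := hp.normalised 3 (by norm_num)
  have z00 : (p 0).coeff 0 ≠ 0 := Polynomial.coeff_ne_zero_of_eq_degree d0
  have z01 : (p 0).coeff 1 = 0 := Polynomial.coeff_eq_zero_of_degree_lt (by rw [d0]; norm_num)
  have z02 : (p 0).coeff 2 = 0 := Polynomial.coeff_eq_zero_of_degree_lt (by rw [d0]; norm_num)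
  have z03 : (p 0).coeff 3 = 0 := Polynomial.coeff_eq_zero_of_degree_lt (by rw [d0]; norm_num)
  have z11 : (p 1).coeff 1 ≠ 0 := Polynomial.coeff_ne_zero_of_eq_degree d1
  have z12 : (p 1).coeff 2 = 0 := Polynomial.coeff_eq_zero_of_degree_lt (by rw [d1]; norm_num)
  have z13 : (p 1).coeff 3 = 0 := Polynomial.coeff_eq_zero_of_degree_lt (by rw [d1]; norm_num)
  have z22 : (p 2).coeff 2 ≠ 0 := Polynomial.coeff_ne_zero_of_eq_degree d2
  have z23 : (p 2).coeff 3 = 0 := Polynomial.coeff_eq_zero_of_degree_lt (by rw [d2]; norm_num)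
  have z33 : (p 3).coeff 3 ≠ 0 := Polynomial.coeff_ne_zero_of_eq_degree d3
  rw [e3, e0, ip_cub, z01, z02, z03] at o0
  rw [e3, e1, ip_cub, z12, z13] at o1
  rw [e3, e2, ip_cub, z23] at o2
  rw [e3, ip_cub, eval_cub] at n3
  rw [e3, eval_cub]
  generalize (p 3).coeff 3 = a at *
  generalize (p 3).coeff 2 = b at *
  generalize (p 3).coeff 1 = c at *
  generalize (p 3).coeff 0 = e at *
  generalize (p 0).coeff 0 = f0 at *
  generalize (p 1).coeff 1 = f1 at *
  generalize (p 1).coeff 0 = f1' at *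
  generalize (p 2).coeff 2 = f2 at *
  generalize (p 2).coeff 1 = f2' at *
  generalize (p 2).coeff 0 = f2'' at *
  have q0 : 2 * a + 3 * b + e = 0 := by
    have : f0 * (2 * a + 3 * b + e) = 0 := by linear_combination o0
    exact (mul_eq_zero.1 this).resolve_left z00
  have q1 : 19 * a + 2 * b + 3 * c = 0 := by
    have : f1 * (19 * a + 2 * b + 3 * c) = 0 := by linear_combination o1 - f1' * q0
    exact (mul_eq_zero.1 this).resolve_left z11
  have q2 : 30 * a + 19 * b + 2 * c + 3 * e = 0 := by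
    have : f2 * (30 * a + 19 * b + 2 * c + 3 * e) = 0 := by
      linear_combination o2 - f2'' * q0 - f2' * q1
    exact (mul_eq_zero.1 this).resolve_left z22
  have hb : b = -17 * a / 13 := by linarith
  have hc : c = -71 * a / 13 := by linarith
  have he : e = 25 * a / 13 := by linarith
  subst hb hc he
  have ha : a = 1 / 5 := by
    have : a * (a - 1 / 5) = 0 := by nlinarith [n3]
    have := (mul_eq_zero.1 this).resolve_left z33
    linarith
  subst ha
  norm_num

lemma pred_exists : ∃ p : ℕ → ℝ[X], IsPredistance prism 3 3 p := by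
  let p : ℕ → ℝ[X] := fun i =>
    if i = 0 then cub 0 0 0 1 else if i = 1 then cub 0 0 1 0 else
      if i = 2 then cub 0 (6 / 13) (-4 / 13) (-18 / 13) else
        cub (13 / 65) (-17 / 65) (-71 / 65) (25 / 65)
  refine ⟨p, card_eigs_prism, greatest_prism, ?_, ?_, ?_⟩
  · intro i hi
    interval_cases i
    · simp [p, cub]
    · simp [p, cub]
    · simp only [p, cub]
      simp only [OfNat.ofNat_ne_zero, OfNat.ofNat_ne_one, if_false, if_true, map_zero, zero_mul,
        zero_add]
      exact degree_quadratic (by norm_num)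
    · simp only [p, cub]
      simp only [OfNat.ofNat_ne_zero, OfNat.ofNat_ne_one, if_false]
      exact degree_cubic (by norm_num)
  · intro i hi j hj hij
    interval_cases i <;> interval_cases j <;> first | exact absurd rfl hij | (simp [p, ip_cub]; try norm_num)
  · intro i hi
    interval_cases i <;> (simp [p, ip_cub, eval_cub]; try norm_num)

lemma diag_const (l : ℕ) (x y : Fin 6) : (Aℤ ^ l) x x = (Aℤ ^ l) y y := by
  induction l using Nat.strong_induction_on with
  | _ l ih =>
    rcases Nat.lt_or_ge l 4 with hl | hl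
    · interval_cases l
      · revert x y; decide +kernel
      · revert x y; decide +kernel
      · revert x y; decide +kernel
      · revert x y; decide +kernel
    · obtain ⟨m, rfl⟩ := Nat.exists_eq_add_of_le hl
      have : Aℤ ^ (4 + m) = 2 • Aℤ ^ (3 + m) + 5 • Aℤ ^ (2 + m) - 6 • Aℤ ^ (1 + m) := by
        rw [pow_add, minpolyZ, pow_add, pow_add, pow_add, sub_mul, add_mul, smul_mul_assoc,
          smul_mul_assoc, smul_mul_assoc, pow_one]
      rw [this]
      simp only [Matrix.sub_apply, Matrix.add_apply, Matrix.smul_apply]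
      rw [ih (3 + m) (by omega), ih (2 + m) (by omega), ih (1 + m) (by omega)]

lemma walkRegular_prism : WalkRegular prism := by
  intro l x y
  have h1 := prism.adjMatrix_pow_apply_eq_card_walk (α := ℤ) l x x
  have h2 := prism.adjMatrix_pow_apply_eq_card_walk (α := ℤ) l y y
  rw [Nat.card_eq_fintype_card, Nat.card_eq_fintype_card]
  have h3 := diag_const l x y
  rw [h1, h2] at h3
  exact_mod_cast h3

lemma dist_prism (x y : Fin 6) : prism.dist x y =
    if x = y then 0 else if prism.Adj x y then 1 else 2 := by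
  split_ifs with h1 h2
  · subst h1; simp
  · exact SimpleGraph.dist_eq_one_iff_adj.2 h2
  · have h3 : ∀ x y : Fin 6, x ≠ y → ¬ prism.Adj x y → ∃ z, prism.Adj x z ∧ prism.Adj z y := by
      decide +kernel
    obtain ⟨z, hz1, hz2⟩ := h3 x y h1 h2
    let w : prism.Walk x y := .cons hz1 (.cons hz2 .nil)
    have h4 : prism.dist x y ≤ 2 := SimpleGraph.dist_le w
    have h5 : prism.dist x y ≠ 0 := by
      rw [SimpleGraph.Reachable.dist_eq_zero_iff ⟨w⟩ |>.ne]
      exact h1
    have h6 : prism.dist x y ≠ 1 := by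
      intro h
      exact h2 (SimpleGraph.dist_eq_one_iff_adj.1 h)
    omega

lemma connected_prism : prism.Connected := by
  have : Nonempty (Fin 6) := ⟨0⟩
  refine SimpleGraph.Connected.mk ?_
  intro x y
  have h3 : ∀ x y : Fin 6, x = y ∨ prism.Adj x y ∨ ∃ z, prism.Adj x z ∧ prism.Adj z y := by
    decide +kernel
  rcases h3 x y with h | h | ⟨z, h1, h2⟩
  · subst h; exact SimpleGraph.Reachable.refl _
  · exact h.reachable
  · exact h1.reachable.trans h2.reachable

lemma diam_prism : prism.diam = 2 := by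
  apply le_antisymm
  · obtain ⟨u, v, h⟩ := prism.exists_dist_eq_diam
    rw [← h, dist_prism]
    split_ifs <;> norm_num
  · have h : prism.dist 0 4 ≤ prism.diam :=
      SimpleGraph.dist_le_diam (SimpleGraph.connected_iff_ediam_ne_top.1 connected_prism)
    rw [dist_prism] at h
    have h1 : ¬ prism.Adj 0 4 := by decide +kernel
    rw [if_neg (by decide), if_neg h1] at h
    exact h

lemma gamma_prism (x : Fin 6) : {y | prism.dist x y = 2}.ncard = 2 := by
  have h1 : {y | prism.dist x y = 2} =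
      ((Finset.univ.filter (fun y => x ≠ y ∧ ¬ prism.Adj x y) : Finset (Fin 6)) : Set (Fin 6)) := by
    ext y
    simp only [Set.mem_ofPred_eq, dist_prism, Finset.coe_filter, Finset.mem_univ, true_and]
    split_ifs with h1 h2 <;> simp [h1] <;> assumption
  rw [h1, Set.ncard_coe_finset]
  clear h1
  revert x
  decide +kernel

/-- There is a connected 3-regular walk-regular graph with `D = 2 < 3 = d`, namely the triangular
prism, for which `|Γ_D(x)| = 2 > 2/13 = p_d(k)` for every vertex `x`. -/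
theorem result :
    ∃ (G : SimpleGraph (Fin 6)) (_ : DecidableRel G.Adj),
      G.Connected ∧ G.IsRegularOfDegree 3 ∧ WalkRegular G ∧ G.diam < 3 ∧
      (∃ p : ℕ → ℝ[X], IsPredistance G 3 3 p) ∧
      ∀ p : ℕ → ℝ[X], IsPredistance G 3 3 p → (p 3).eval 3 = 2 / 13 ∧
        ∀ x, {y | G.dist x y = G.diam}.ncard = 2 ∧
          (p 3).eval 3 < ({y | G.dist x y = G.diam}.ncard : ℝ) := by
  refine ⟨prism, inferInstance, connected_prism, ?_, walkRegular_prism, ?_, pred_exists, ?_⟩
  · intro v
    revert v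
    decide +kernel
  · rw [diam_prism]; norm_num
  · intro p hp
    have h := pred_unique hp
    refine ⟨h, fun x => ?_⟩
    rw [diam_prism, gamma_prism, h]
    norm_num

end Pool.Agent.Results.MP_87d29b_co.PrismCounterexample
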